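import Mathlib

set_option autoImplicit false

namespace Pool.Agent.Work.MP_1e2692_co

/-- Allowed moves of one player (a cop or the robber) in the passive game on `G`:
stay put or move to an adjacent vertex. -/
def passiveMove {V : Type*} (G : SimpleGraph V) (u v : V) : Prop := v = u ∨ G.Adj u v

/-- Allowed moves of one player (a cop or the robber) in the fully active game on `G`:
move to an adjacent vertex. -/
def activeMove {V : Type*} (G : SimpleGraph V) (u v : V) : Prop := G.Adj u v

/-- The list `[r 0, r 1, …, r (t - 1)]` of the first `t` positions of the robber. -/
def history {V : Type*} (r : ℕ → V) (t : ℕ) : List V := (List.range t).map r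

/-- `CopsWin M k`: in the game in which `M u v` says that a cop or the robber standing on `u` may
move to `v`, `k` cops have a winning strategy. A strategy is a function `σ` giving the positions of
the `k` cops from the list of the positions the robber has occupied so far: `σ []` is the initial
placement of the cops, then the robber chooses `r 0`, the cops move to `σ [r 0]`, the robber moves
to `r 1`, the cops move to `σ [r 0, r 1]`, and so on. The cops have to make allowed moves against
every allowed behaviour of the robber, and whatever the robber does, at some point some cop is on
the vertex of the robber (after a placement or move of the robber, or after a move of the cops). -/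
def CopsWin {V : Type*} (M : V → V → Prop) (k : ℕ) : Prop :=
  ∃ σ : List V → Fin k → V,
    (∀ (h : List V) (x : V), (h ++ [x]).IsChain M → ∀ i, M (σ h i) (σ (h ++ [x]) i)) ∧
    ∀ r : ℕ → V, (∀ t, M (r t) (r (t + 1))) →
      ∃ t i, σ (history r t) i = r t ∨ σ (history r (t + 1)) i = r t

/-- The cop number `c(G)`: the least number of cops with a winning strategy in the passive game. -/
noncomputable def copNumber {V : Type*} (G : SimpleGraph V) : ℕ :=
  sInf {k | CopsWin (passiveMove G) k}

/-- The fully active cop number `c'(G)`: the least number of cops with a winning strategy in the
fully active game. -/
noncomputable def fullyActiveCopNumber {V : Type*} (G : SimpleGraph V) : ℕ :=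
  sInf {k | CopsWin (activeMove G) k}

end Pool.Agent.Work.MP_1e2692_co
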