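import Pool.Agent.Work.MP_1e2692_co.Example

set_option autoImplicit false

namespace Pool.Agent.Work.MP_1e2692_co

theorem mem_clb_of {u v : Fin 17} (h : passiveMove exG u v) : v.val ∈ clb u.val := by
  rcases h with h | h
  · rw [h]; exact List.mem_cons_self
  · exact List.mem_cons_of_mem _ h

theorem nb_lt {a : ℕ} (ha : a < 17) {i : ℕ} (hi : i ∈ nb a) : i < 17 := by
  have h := checkNb_eq
  unfold checkNb at h
  rw [List.all_eq_true] at h
  have h1 := h a (List.mem_range.mpr ha)
  rw [List.all_eq_true] at h1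
  exact of_decide_eq_true (h1 i hi)

theorem passive_spec {a b r : ℕ} (ha : a < 17) (hb : b < 17) (hr : r < 17) (h : tb a b r = true) :
    r ≠ a ∧ r ≠ b ∧ ∀ i ∈ clb a, ∀ j ∈ clb b, i ≠ r ∧ j ≠ r ∧ ∃ r' ∈ clb r, tb i j r' = true := by
  have hc := checkPassive_eq
  unfold checkPassive at hc
  rw [List.all_eq_true] at hc
  have h1 := hc a (List.mem_range.mpr ha)
  rw [List.all_eq_true] at h1
  have h2 := h1 b (List.mem_range.mpr hb)
  rw [List.all_eq_true] at h2
  have h3 := h2 r (List.mem_range.mpr hr)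
  simp only [h, Bool.not_true, Bool.false_or, Bool.and_eq_true, bne_iff_ne, ne_eq,
    List.all_eq_true, List.any_eq_true] at h3
  obtain ⟨⟨h4, h5⟩, h6⟩ := h3
  refine ⟨h4, h5, ?_⟩
  intro i hi j hj
  obtain ⟨⟨h7, h8⟩, h9⟩ := h6 i hi j hj
  exact ⟨h7, h8, h9⟩

theorem passive0_spec {a b : ℕ} (ha : a < 17) (hb : b < 17) : ∃ r < 17, tb a b r = true := by
  have hc := checkPassive0_eq
  unfold checkPassive0 at hc
  rw [List.all_eq_true] at hc
  have h1 := hc a (List.mem_range.mpr ha)
  rw [List.all_eq_true] at h1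
  have h2 := h1 b (List.mem_range.mpr hb)
  rw [List.any_eq_true] at h2
  obtain ⟨r, hr, h3⟩ := h2
  exact ⟨r, List.mem_range.mp hr, h3⟩

theorem active_spec {a b r : ℕ} (ha : a < 17) (hb : b < 17) (hr : r < 17) (h : rk a b r ≠ 0) :
    ∃ i ∈ nb a, ∃ j ∈ nb b, i = r ∨ j = r ∨
      ∀ r' ∈ nb r, r' = i ∨ r' = j ∨ (rk i j r' ≠ 0 ∧ rk i j r' < rk a b r) := by
  have hc := checkActive_eq
  unfold checkActive at hc
  rw [List.all_eq_true] at hc
  have h1 := hc a (List.mem_range.mpr ha)
  rw [List.all_eq_true] at h1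
  have h2 := h1 b (List.mem_range.mpr hb)
  rw [List.all_eq_true] at h2
  have h3 := h2 r (List.mem_range.mpr hr)
  have h0 : (rk a b r == 0) = false := by simpa using h
  rw [h0, Bool.false_or, List.any_eq_true] at h3
  obtain ⟨i, hi, h4⟩ := h3
  rw [List.any_eq_true] at h4
  obtain ⟨j, hj, h5⟩ := h4
  refine ⟨i, hi, j, hj, ?_⟩
  rw [Bool.or_eq_true, Bool.or_eq_true, beq_iff_eq, beq_iff_eq, List.all_eq_true] at h5
  rcases h5 with (h5 | h5) | h5
  · exact Or.inl h5
  · exact Or.inr (Or.inl h5)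
  · refine Or.inr (Or.inr ?_)
    intro r' hr'
    have h6 := h5 r' hr'
    rw [Bool.or_eq_true, Bool.or_eq_true, beq_iff_eq, beq_iff_eq, Bool.and_eq_true, bne_iff_ne,
      decide_eq_true_eq] at h6
    rcases h6 with (h6 | h6) | h6
    · exact Or.inl h6
    · exact Or.inr (Or.inl h6)
    · exact Or.inr (Or.inr h6)

theorem active0_spec {r : ℕ} (hr : r < 17) : r = 0 ∨ r = 8 ∨ rk 0 8 r ≠ 0 := by
  have hc := checkActive0_eq
  unfold checkActive0 at hc
  rw [List.all_eq_true] at hc
  have h1 := hc r (List.mem_range.mpr hr)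
  rw [Bool.or_eq_true, Bool.or_eq_true, beq_iff_eq, beq_iff_eq, bne_iff_ne] at h1
  rcases h1 with (h1 | h1) | h1
  · exact Or.inl h1
  · exact Or.inr (Or.inl h1)
  · exact Or.inr (Or.inr h1)

/-- The robber escapes from two passive cops. -/
theorem not_passive_two : ¬ CopsWin (passiveMove exG) 2 := by
  refine not_copsWin (fun c r => tb (c 0).val (c 1).val r.val = true) ?_ ?_ ?_
  · intro c
    obtain ⟨r, hr, h⟩ := passive0_spec (c 0).isLt (c 1).isLt
    exact ⟨⟨r, hr⟩, h⟩
  · intro c r h i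
    obtain ⟨h1, h2, _⟩ := passive_spec (c 0).isLt (c 1).isLt r.isLt h
    intro hi
    fin_cases i
    · exact h1 (congrArg Fin.val hi).symm
    · exact h2 (congrArg Fin.val hi).symm
  · intro c r c' h hM
    obtain ⟨_, _, h3⟩ := passive_spec (c 0).isLt (c 1).isLt r.isLt h
    obtain ⟨h4, h5, r', hr', h6⟩ := h3 _ (mem_clb_of (hM 0)) _ (mem_clb_of (hM 1))
    constructor
    · intro i hi
      fin_cases i
      · exact h4 (congrArg Fin.val hi)
      · exact h5 (congrArg Fin.val hi)
    · have hr'lt : r' < 17 := by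
        rcases List.mem_cons.mp hr' with h7 | h7
        · rw [h7]; exact r.isLt
        · exact nb_lt r.isLt h7
      refine ⟨⟨r', hr'lt⟩, ?_, h6⟩
      rcases List.mem_cons.mp hr' with h7 | h7
      · exact Or.inl (Fin.ext h7)
      · exact Or.inr h7

/-- Two fully active cops win. -/
theorem active_two : CopsWin (activeMove exG) 2 := by
  refine copsWin_of_rank ?_ (fun i => if i = 0 then 0 else 8)
    (fun t c r => (∃ i, c i = r) ∨ (rk (c 0).val (c 1).val r.val ≠ 0 ∧
      rk (c 0).val (c 1).val r.val ≤ t)) ?_ ?_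
  · intro u
    show ∃ v : Fin 17, v.val ∈ nb u.val
    revert u
    decide +kernel
  · rintro t c r (h | ⟨h1, h2⟩)
    · exact Or.inl h
    · right
      obtain ⟨i, hi, j, hj, h3⟩ := active_spec (c 0).isLt (c 1).isLt r.isLt h1
      have hi17 := nb_lt (c 0).isLt hi
      have hj17 := nb_lt (c 1).isLt hj
      refine ⟨fun l => if l = 0 then ⟨i, hi17⟩ else ⟨j, hj17⟩, ?_, ?_⟩
      · intro l
        fin_cases l
        · exact hi
        · exact hj
      · rcases h3 with h3 | h3 | h3
        · exact Or.inl ⟨0, Fin.ext h3⟩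
        · exact Or.inl ⟨1, Fin.ext h3⟩
        · right
          refine ⟨rk (c 0).val (c 1).val r.val - 1, by omega, ?_⟩
          intro r' hr'
          rcases h3 r'.val hr' with h4 | h4 | ⟨h4, h5⟩
          · exact Or.inl ⟨0, Fin.ext h4.symm⟩
          · exact Or.inl ⟨1, Fin.ext h4.symm⟩
          · refine Or.inr (Or.inr ⟨h4, ?_⟩)
            show rk i j r'.val ≤ _
            omega
  · intro r
    rcases active0_spec r.isLt with h | h | h
    · exact ⟨0, Or.inl ⟨0, Fin.ext h.symm⟩⟩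
    · exact ⟨0, Or.inl ⟨1, Fin.ext h.symm⟩⟩
    · exact ⟨_, Or.inr ⟨h, le_rfl⟩⟩

theorem fullyActive_le_two : fullyActiveCopNumber exG ≤ 2 := Nat.sInf_le active_two

theorem three_le_copNumber : 3 ≤ copNumber exG := by
  have hne : {k | CopsWin (passiveMove exG) k}.Nonempty := by
    refine ⟨17, fun _ i => i, fun _ _ _ i => Or.inl rfl, ?_⟩
    intro r _
    exact ⟨0, r 0, Or.inl rfl⟩
  have hmem : CopsWin (passiveMove exG) (copNumber exG) := Nat.sInf_mem hne
  by_contra hlt
  have hlt' : copNumber exG = 0 ∨ copNumber exG = 1 ∨ copNumber exG = 2 := by omega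
  rcases hlt' with h | h | h
  · rw [h] at hmem
    exact not_copsWin_zero (M := passiveMove exG) (fun _ => 0) (fun _ => Or.inl rfl) hmem
  · rw [h] at hmem
    exact not_passive_two (hmem.comp (fun _ => 0) (fun b => ⟨0, Subsingleton.elim _ _⟩))
  · rw [h] at hmem
    exact not_passive_two hmem

theorem main : ∃ G : SimpleGraph (Fin 17), G.Connected ∧ G.IsBipartite ∧
    fullyActiveCopNumber G < copNumber G :=
  ⟨exG, exG_connected, exG_bipartite, lt_of_le_of_lt fullyActive_le_two three_le_copNumber⟩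

end Pool.Agent.Work.MP_1e2692_co
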