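import Pool.Agent.Work.MP_1e2692_co.Game

set_option autoImplicit false

namespace Pool.Agent.Work.MP_1e2692_co

variable {V : Type*}

theorem history_succ (r : ℕ → V) (t : ℕ) : history r (t + 1) = history r t ++ [r t] := by
  simp [history, List.range_succ]

theorem history_chain {M : V → V → Prop} (r : ℕ → V) (h : ∀ t, M (r t) (r (t + 1))) (t : ℕ) :
    (history r t).IsChain M := by
  induction t with
  | zero => simp [history]
  | succ t IH =>
    rw [history_succ]
    rw [List.isChain_append]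
    refine ⟨IH, by simp, ?_⟩
    intro x hx y hy
    rcases t with _ | t
    · simp [history] at hx
    · rw [history_succ] at hx
      simp at hx hy
      subst hx; subst hy
      exact h t

/-- Robber evasion: a set of safe positions (cops to move) defeats every strategy. -/
theorem not_copsWin {M : V → V → Prop} {k : ℕ} (S : (Fin k → V) → V → Prop)
    (h0 : ∀ c, ∃ r, S c r) (h1 : ∀ c r, S c r → ∀ i, c i ≠ r)
    (h2 : ∀ c r c', S c r → (∀ i, M (c i) (c' i)) → (∀ i, c' i ≠ r) ∧ ∃ r', M r r' ∧ S c' r') :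
    ¬ CopsWin M k := by
  rintro ⟨σ, hleg, hwin⟩
  let Q := {p : List V × V // (p.1 ++ [p.2]).IsChain M ∧ S (σ p.1) p.2}
  have hnext : ∀ q : Q, ∃ q' : Q, q'.1.1 = q.1.1 ++ [q.1.2] ∧ M q.1.2 q'.1.2 := by
    rintro ⟨⟨h, x⟩, hc, hS⟩
    obtain ⟨_, r', hM, hS'⟩ := h2 _ _ (σ (h ++ [x])) hS (hleg h x hc)
    refine ⟨⟨⟨h ++ [x], r'⟩, ?_, hS'⟩, rfl, hM⟩
    show ((h ++ [x]) ++ [r']).IsChain M
    rw [List.isChain_append]
    refine ⟨hc, by simp, ?_⟩
    intro a ha b hb
    simp at ha hb
    subst ha; subst hb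
    exact hM
  choose nx hnx1 hnx2 using hnext
  obtain ⟨r0, hr0⟩ := h0 (σ [])
  let q : ℕ → Q := fun n => Nat.rec ⟨⟨[], r0⟩, by simp, hr0⟩ (fun _ => nx) n
  let r : ℕ → V := fun t => (q t).1.2
  have hq : ∀ t, (q t).1.1 = history r t := by
    intro t
    induction t with
    | zero => simp [history, q]
    | succ t IH =>
      rw [history_succ, ← IH]
      exact hnx1 (q t)
  have hr : ∀ t, M (r t) (r (t + 1)) := fun t => hnx2 (q t)
  obtain ⟨t, i, ht | ht⟩ := hwin r hr
  · have hS := (q t).2.2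
    rw [hq t] at hS
    exact h1 _ _ hS i ht
  · have hS := (q t).2.2
    have hc := (q t).2.1
    rw [hq t] at hS hc
    have := (h2 _ _ (σ (history r (t + 1))) hS (by
      rw [history_succ]
      exact hleg (history r t) (r t) hc)).1 i
    exact this ht

/-- A ranked family of winning positions gives the cops a winning strategy. -/
theorem copsWin_of_rank {M : V → V → Prop} {k : ℕ} (hM : ∀ u, ∃ v, M u v) (c0 : Fin k → V)
    (Win : ℕ → (Fin k → V) → V → Prop)
    (h : ∀ t c r, Win t c r → (∃ i, c i = r) ∨ ∃ c', (∀ i, M (c i) (c' i)) ∧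
      ((∃ i, c' i = r) ∨ ∃ s < t, ∀ r', M r r' → (∃ i, c' i = r') ∨ Win s c' r'))
    (h0 : ∀ r, ∃ t, Win t c0 r) : CopsWin M k := by
  classical
  -- positional strategy
  have hF : ∀ (c : Fin k → V) (r : V), ∃ c' : Fin k → V, (∀ i, M (c i) (c' i)) ∧
      (∀ t, Win t c r → (∀ s < t, ¬ Win s c r) → (∃ i, c i = r) ∨
      ((∃ i, c' i = r) ∨ ∃ s < t, ∀ r', M r r' → (∃ i, c' i = r') ∨ Win s c' r')) := by
    intro c r
    by_cases hex : ∃ t, Win t c r
    · have hw := Nat.find_spec hex
      rcases h _ c r hw with h1 | ⟨c', h1, h2⟩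
      · choose f hf using hM
        refine ⟨fun i => f (c i), fun i => hf (c i), fun t _ _ => Or.inl h1⟩
      · refine ⟨c', h1, ?_⟩
        intro t ht hmin
        right
        have hle : Nat.find hex ≤ t := Nat.find_le ht
        rcases h2 with h2 | ⟨s, hs, h2⟩
        · exact Or.inl h2
        · exact Or.inr ⟨s, lt_of_lt_of_le hs hle, h2⟩
    · choose f hf using hM
      refine ⟨fun i => f (c i), fun i => hf (c i), fun t ht => absurd ⟨t, ht⟩ hex⟩
  choose F hF1 hF2 using hF
  let σ : List V → Fin k → V := fun h => h.foldl F c0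
  have hσ : ∀ h x, σ (h ++ [x]) = F (σ h) x := by
    intro h x
    simp [σ, List.foldl_append]
  refine ⟨σ, ?_, ?_⟩
  · intro h x _ i
    rw [hσ]
    exact hF1 _ _ i
  · intro r hr
    have main : ∀ t n, Win t (σ (history r n)) (r n) →
        ∃ t i, σ (history r t) i = r t ∨ σ (history r (t + 1)) i = r t := by
      intro t
      induction t using Nat.strong_induction_on with
      | _ t IH =>
        intro n hn
        by_cases hmin : ∀ s < t, ¬ Win s (σ (history r n)) (r n)
        · rcases hF2 _ _ t hn hmin with ⟨i, hi⟩ | ⟨i, hi⟩ | ⟨s, hs, h3⟩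
          · exact ⟨n, i, Or.inl hi⟩
          · refine ⟨n, i, Or.inr ?_⟩
            rw [history_succ, hσ]; exact hi
          · rcases h3 (r (n + 1)) (hr n) with ⟨i, hi⟩ | h4
            · refine ⟨n + 1, i, Or.inl ?_⟩
              rw [history_succ, hσ]; exact hi
            · refine IH s hs (n + 1) ?_
              rw [history_succ, hσ]; exact h4
        · push Not at hmin
          obtain ⟨s, hs, hws⟩ := hmin
          exact IH s hs n hws
    obtain ⟨t, ht⟩ := h0 (r 0)
    exact main t 0 (by simpa [history, σ] using ht)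

theorem CopsWin.comp {M : V → V → Prop} {k l : ℕ} (f : Fin l → Fin k)
    (hf : Function.Surjective f) (h : CopsWin M k) : CopsWin M l := by
  obtain ⟨σ, h1, h2⟩ := h
  refine ⟨fun h i => σ h (f i), fun h x hc i => h1 h x hc (f i), ?_⟩
  intro r hr
  obtain ⟨t, i, hti⟩ := h2 r hr
  obtain ⟨j, rfl⟩ := hf i
  exact ⟨t, j, hti⟩

theorem not_copsWin_zero {M : V → V → Prop} (r : ℕ → V) (hr : ∀ t, M (r t) (r (t + 1))) :
    ¬ CopsWin M 0 := by
  rintro ⟨σ, _, h2⟩
  obtain ⟨_, i, _⟩ := h2 r hr
  exact i.elim0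

end Pool.Agent.Work.MP_1e2692_co
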